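import Mathlib
import Pool.Agent.V11263.UniE

namespace Pool.Agent.Results.MP_baa5e6_mp.MixedNotPure

open Matrix Pool.Agent.V11263.Uni
open scoped ComplexOrder

/-- Uniform certifiability of `v` under the promise that the state is pure. -/
def CertifiableAmongPure {N : ℕ} (v : Idx N → ℂ) : Prop :=
  ∀ w : Idx N → ℂ, IsUnitVec w → SameData (proj w) (proj v) → proj w = proj v

/-- Uniform certifiability of `v` with no promise. -/
def CertifiableAmongAll {N : ℕ} (v : Idx N → ℂ) : Prop :=
  ∀ ρ : Op N, IsState ρ → SameData ρ (proj v) → ρ = proj v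

lemma pure_unique {ψ : Idx 6 → ℂ} (hψ : Sing ψ) {κ : Fin 6 → ℝ} (hκ : ∀ τ, cf ψ τ = (κ τ : ℂ))
    (hinj : Function.Injective κ) {w : Idx 6 → ℂ} (h : SameData (proj w) (proj ψ)) :
    proj w = proj ψ := by
  have hw : Sing w := ⟨tot_zero ex_unit h hψ.hx, tot_zero ez_unit h hψ.hz⟩
  obtain ⟨h1, h2⟩ := eq_data hw hψ h
  set a : Fin 6 → ℝ := fun τ => (cf w τ).re with ha
  set b : Fin 6 → ℝ := fun τ => (cf w τ).im with hb
  set R : Fin 6 → Fin 6 → ℝ := fun p q => a p * a q + b p * b q - κ p * κ q with hR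
  have hre : ∀ p q, (star (cf w p) * cf w q - star (cf ψ p) * cf ψ q).re = R p q := by
    intro p q
    rw [hκ, hκ]
    simp [hR, ha, hb, Complex.mul_re]
  have sa : ∑ i, a i = 0 := by
    have := congrArg Complex.re (cf_sum w)
    rw [Complex.re_sum] at this
    simpa using this
  have sb : ∑ i, b i = 0 := by
    have := congrArg Complex.im (cf_sum w)
    rw [Complex.im_sum] at this
    simpa using this
  have sk : ∑ i, κ i = 0 := by
    have := cf_sum ψ
    simp only [hκ] at this
    exact_mod_cast this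
  have htr : ∑ p, R p p = 0 := by
    have := congrArg Complex.re h1
    rw [Complex.re_sum] at this
    simpa only [hre, Complex.zero_re] using this
  have hm : ∀ m, ∑ p, R p (Pt m p) = 0 := by
    intro m
    have := congrArg Complex.re (h2 m)
    rw [Complex.re_sum] at this
    simpa only [hre, Complex.zero_re] using this
  have hrow : ∀ p, ∑ q, R p q = 0 := by
    intro p
    simp only [hR, Finset.sum_sub_distrib, Finset.sum_add_distrib, ← Finset.mul_sum, sa, sb, sk]
    ring
  have hoff := lin (R := R) (fun p q => by simp only [hR]; ring) hrow htr hm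
  have hz := core (a := a) (b := b) (k := κ) (R := R) hinj sa sb sk (fun p q => rfl) htr hoff
  have hcc : ∀ p q, cf w p * star (cf w q) = cf ψ p * star (cf ψ q) := by
    intro p q
    have e1 : a p * a q + b p * b q = κ p * κ q := by have := hz p q; simp only [hR] at this; linarith
    have e2 : a p * a p + b p * b p = κ p * κ p := by have := hz p p; simp only [hR] at this; linarith
    have e3 : a q * a q + b q * b q = κ q * κ q := by have := hz q q; simp only [hR] at this; linarith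
    have e4 : b p * a q - a p * b q = 0 := by
      have : (b p * a q - a p * b q) ^ 2 = 0 := by
        have : (b p * a q - a p * b q) ^ 2 = (a p * a p + b p * b p) * (a q * a q + b q * b q) -
          (a p * a q + b p * b q) ^ 2 := by ring
        rw [this, e1, e2, e3]; ring
      exact pow_eq_zero_iff (two_ne_zero) |>.mp this
    rw [hκ, hκ]
    apply Complex.ext
    · simp only [Complex.mul_re, Complex.star_def, Complex.conj_re, Complex.conj_im,
        Complex.ofReal_re, Complex.ofReal_im]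
      simp only [ha, hb] at e1
      linarith
    · simp only [Complex.mul_im, Complex.star_def, Complex.conj_re, Complex.conj_im,
        Complex.ofReal_re, Complex.ofReal_im]
      simp only [ha, hb] at e4
      linarith
  ext s t
  simp only [proj, vecMulVec_apply, Pi.star_apply]
  by_cases hs : ws s = 0
  · by_cases ht : ws t = 0
    · obtain ⟨k, rfl⟩ := St_surj s hs
      obtain ⟨l, rfl⟩ := St_surj t ht
      have e : ∀ {φ : Idx 6 → ℂ}, Sing φ → 576 * (φ (St k) * star (φ (St l))) =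
          ∑ p, ∑ q, (E p k : ℂ) * (E q l : ℂ) * (cf φ p * star (cf φ q)) := by
        intro φ hφ
        have e1 := hφ.recon k
        have e2 : 24 * star (φ (St l)) = ∑ τ, (E τ l : ℂ) * star (cf φ τ) := by
          have := congrArg star (hφ.recon l)
          rw [star_mul', star_sum] at this
          simpa using this
        calc 576 * (φ (St k) * star (φ (St l))) = (24 * φ (St k)) * (24 * star (φ (St l))) := by ring
          _ = _ := by
            rw [e1, e2, Finset.sum_mul_sum]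
            exact Finset.sum_congr rfl fun p _ => Finset.sum_congr rfl fun q _ => by ring
      have h3 := e hw
      have h4 := e hψ
      simp only [hcc] at h3
      rw [← h4] at h3
      have : (576 : ℂ) ≠ 0 := by norm_num
      exact mul_left_cancel₀ this h3
    · rw [hw.off t ht, hψ.off t ht]; simp
  · rw [hw.off s hs, hψ.off s hs]; simp

/-- the coefficients of the target -/
def kk : Fin 6 → ℤ := ![17, 0, -1, -3, -6, -7]

/-- the target vector -/
noncomputable def psi : Idx 6 → ℂ := fun s => (1 / 96 : ℂ) * ∑ τ, (kk τ : ℂ) * (g τ s : ℂ)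

lemma psi_sing : Sing psi := by
  constructor
  · ext s
    rw [tot_ex, Pi.zero_apply]
    simp only [psi]
    rw [← Finset.mul_sum, Finset.sum_comm]
    have : ∀ τ, ∑ i, (kk τ : ℂ) * (g τ (flip s i) : ℂ) = 0 := by
      intro τ
      rw [← Finset.mul_sum]
      have h := g_flip τ s
      have : (∑ i, (g τ (flip s i) : ℂ)) = ((∑ i, g τ (flip s i) : ℤ) : ℂ) := by push_cast; rfl
      rw [this, h]
      simp
    simp [this]
  · ext s
    rw [tot_ez, Pi.zero_apply]
    by_cases h : ws s = 0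
    · have : (∑ i, (sgn (s i) : ℂ)) = ((ws s : ℤ) : ℂ) := by rw [ws]; push_cast; rfl
      rw [this, h]
      simp
    · simp only [psi]
      rw [Finset.sum_eq_zero (s := Finset.univ) (f := fun τ => (kk τ : ℂ) * (g τ s : ℂ))]
      · simp
      · intro τ _
        rw [g_off τ s h]
        simp

/-- the frame coefficients of the target -/
noncomputable def kap : Fin 6 → ℝ := fun τ => (kk τ : ℝ) / 4

lemma psi_cf (τ : Fin 6) : cf psi τ = (kap τ : ℂ) := by
  have h : cf psi τ = (1 / 96 : ℂ) * ∑ υ, (kk υ : ℂ) * ((∑ l, E τ l * E υ l : ℤ) : ℂ) := by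
    simp only [cf, psi, g_St]
    push_cast
    simp only [Finset.mul_sum]
    rw [Finset.sum_comm]
    refine Finset.sum_congr rfl fun υ _ => Finset.sum_congr rfl fun l _ => ?_
    ring
  rw [h]
  simp only [Pool.Agent.V11263.Uni.gram]
  fin_cases τ <;> simp [Fin.sum_univ_six, kk, kap] <;> norm_num

lemma kap_inj : Function.Injective kap := by
  have h : Function.Injective kk := by decide
  intro p q hpq
  apply h
  simp only [kap] at hpq
  have : (kk p : ℝ) = kk q := by linarith
  exact_mod_cast this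

lemma psi_unit : IsUnitVec psi := by
  have h := psi_sing.weighted (fun _ => 1)
  have h1 : star psi ⬝ᵥ psi = ∑ k, (star (psi (St k)) * psi (St k)) := by
    rw [dotProduct, sum_St]
    · rfl
    · intro s hs
      rw [psi_sing.off s hs]
      simp
  have h2 : ∑ τ, ∑ υ, ((∑ k, (1 : ℤ) * (E τ k * E υ k) : ℤ) : ℂ) *
      (star (cf psi τ) * cf psi υ) = 576 := by
    simp only [one_mul, Pool.Agent.V11263.Uni.gram, psi_cf]
    simp [Fin.sum_univ_six, kap, kk]
    norm_num
  rw [IsUnitVec, h1]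
  simp only [Int.cast_one, one_mul] at h h2
  rw [h2] at h
  have : (576 : ℂ) ≠ 0 := by norm_num
  apply mul_left_cancel₀ this
  rw [h, mul_one]

theorem psi_certifiable : CertifiableAmongPure psi := fun _ _ h =>
  pure_unique psi_sing psi_cf kap_inj h

/-! ### The mixed state -/

/-- weights -/
def uu : Fin 6 → ℤ := ![-5, 1, 1, 1, 1, 1]

/-- the perturbation -/
noncomputable def dl : Op 6 := ∑ τ, (uu τ : ℂ) • proj (gc τ)

/-- the mixed state with the same data -/
noncomputable def rho : Op 6 := proj psi + (1 / 9216 : ℂ) • dl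

lemma proj_herm {N : ℕ} (v : Idx N → ℂ) : (proj v)ᴴ = proj v :=
  (Matrix.posSemidef_vecMulVec_self_star v).isHermitian

lemma proj_qf {N : ℕ} (v x : Idx N → ℂ) :
    star x ⬝ᵥ (proj v *ᵥ x) = star (star v ⬝ᵥ x) * (star v ⬝ᵥ x) := by
  rw [proj, Matrix.vecMulVec_mulVec]
  have : star (star v ⬝ᵥ x) = star x ⬝ᵥ v := (Matrix.star_dotProduct x v).symm
  rw [this]
  simp [dotProduct_smul, mul_comm]

lemma data_g (τ : Fin 6) {n : Fin 3 → ℝ} (hn : n 0 ^ 2 + n 1 ^ 2 + n 2 ^ 2 = 1)
    (I : Finset (Fin 6)) : data (proj (gc τ)) n I = data (proj (gc 0)) n I := by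
  rw [data_inv (fun V hV => rot_g V hV τ) hn, data_inv (fun V hV => rot_g V hV 0) hn,
    data_ez, data_ez]
  refine Finset.sum_congr rfl fun s _ => ?_
  have h := g_sq τ 0 s
  have h' : star (gc τ s) * gc τ s = star (gc 0 s) * gc 0 s := by
    simp only [gc]
    have : ((g τ s * g τ s : ℤ) : ℂ) = ((g 0 s * g 0 s : ℤ) : ℂ) := by rw [h]
    push_cast at this
    simpa using this
  rw [h']

lemma rho_data : SameData rho (proj psi) := by
  intro n hn I
  have h : data rho n I = data (proj psi) n I +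
      (1 / 9216 : ℂ) * ∑ τ, (uu τ : ℂ) * data (proj (gc τ)) n I := by
    simp only [rho, dl, data, add_mul, Matrix.trace_add, smul_mul_assoc, Matrix.trace_smul,
      smul_eq_mul, Finset.sum_mul, Matrix.trace_sum]
  rw [h]
  simp only [data_g _ hn]
  rw [← Finset.sum_mul]
  have : (∑ τ, (uu τ : ℂ)) = 0 := by simp [Fin.sum_univ_six, uu]; norm_num
  rw [this]
  simp

lemma rho_trace : rho.trace = 1 := by
  have h1 : (proj psi).trace = 1 := by
    rw [proj, Matrix.trace_vecMulVec, dotProduct_comm]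
    exact psi_unit
  have h2 : ∀ τ, (proj (gc τ)).trace = (proj (gc 0)).trace := by
    intro τ
    have := data_g τ ez_unit ∅
    simpa [data, obs, prodOp_one] using this
  rw [rho, dl, Matrix.trace_add, h1, Matrix.trace_smul, Matrix.trace_sum]
  simp only [Matrix.trace_smul, h2, smul_eq_mul]
  rw [← Finset.sum_mul]
  have : (∑ τ, (uu τ : ℂ)) = 0 := by simp [Fin.sum_univ_six, uu]; norm_num
  rw [this]
  simp

lemma real_ineq {p : Fin 6 → ℝ} (hp : ∑ τ, p τ = 0) :
    0 ≤ (∑ τ, (kk τ : ℝ) * p τ) ^ 2 + ∑ τ, (uu τ : ℝ) * (p τ) ^ 2 := by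
  simp only [Fin.sum_univ_six] at hp ⊢
  have e : (kk 0 : ℝ) = 17 ∧ (kk 1 : ℝ) = 0 ∧ (kk 2 : ℝ) = -1 ∧ (kk 3 : ℝ) = -3 ∧
      (kk 4 : ℝ) = -6 ∧ (kk 5 : ℝ) = -7 := by simp [kk]
  have e' : (uu 0 : ℝ) = -5 ∧ (uu 1 : ℝ) = 1 ∧ (uu 2 : ℝ) = 1 ∧ (uu 3 : ℝ) = 1 ∧
      (uu 4 : ℝ) = 1 ∧ (uu 5 : ℝ) = 1 := by simp [uu]
  obtain ⟨a0, a1, a2, a3, a4, a5⟩ := e
  obtain ⟨b0, b1, b2, b3, b4, b5⟩ := e'
  rw [a0, a1, a2, a3, a4, a5, b0, b1, b2, b3, b4, b5]
  set L := 17 * p 0 + 0 * p 1 + -1 * p 2 + -3 * p 3 + -6 * p 4 + -7 * p 5 with hL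
  set m := 3 * p 1 + 2 * p 2 - 3 * p 4 - 4 * p 5 with hm
  have h20 : 20 * p 0 = L - m := by
    rw [hL, hm]; linarith
  have hcs : m ^ 2 ≤ 38 * (p 1 ^ 2 + p 2 ^ 2 + p 3 ^ 2 + p 4 ^ 2 + p 5 ^ 2) := by
    rw [hm]
    nlinarith [sq_nonneg (2 * p 1 - 3 * p 2), sq_nonneg (p 1 + p 4), sq_nonneg (4 * p 1 + 3 * p 5),
      sq_nonneg (3 * p 2 + 2 * p 4), sq_nonneg (2 * p 2 + p 5), sq_nonneg (4 * p 4 - 3 * p 5),
      sq_nonneg (p 3)]
  have h400 : 400 * p 0 ^ 2 ≤ 2 * L ^ 2 + 2 * m ^ 2 := by
    have : 400 * p 0 ^ 2 = (L - m) ^ 2 := by rw [← h20]; ring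
    rw [this]
    nlinarith [sq_nonneg (L + m)]
  nlinarith [sq_nonneg L, sq_nonneg (p 1), sq_nonneg (p 2), sq_nonneg (p 3), sq_nonneg (p 4),
    sq_nonneg (p 5)]

lemma rho_psd : rho.PosSemidef := by
  have hherm : rho.IsHermitian := by
    rw [Matrix.IsHermitian, rho, dl, Matrix.conjTranspose_add, proj_herm,
      Matrix.conjTranspose_smul, Matrix.conjTranspose_sum]
    congr 1
    have e1 : star (1 / 9216 : ℂ) = 1 / 9216 := by simp
    rw [e1]
    congr 1
    refine Finset.sum_congr rfl fun τ _ => ?_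
    rw [Matrix.conjTranspose_smul, proj_herm]
    congr 1
    simp
  refine Matrix.PosSemidef.of_dotProduct_mulVec_nonneg hherm fun x => ?_
  set y : Fin 6 → ℂ := fun τ => star (gc τ) ⬝ᵥ x with hy
  have hysum : ∑ τ, y τ = 0 := by
    simp only [hy, dotProduct]
    rw [Finset.sum_comm]
    refine Finset.sum_eq_zero fun s _ => ?_
    rw [← Finset.sum_mul]
    have : (∑ τ, star (gc τ) s) = ((∑ τ, g τ s : ℤ) : ℂ) := by
      push_cast
      exact Finset.sum_congr rfl fun τ _ => by simp [gc]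
    rw [this, g_sum]
    simp
  have hpsi : star psi ⬝ᵥ x = (1 / 96 : ℂ) * ∑ τ, (kk τ : ℂ) * y τ := by
    simp only [hy, dotProduct, Finset.mul_sum]
    rw [Finset.sum_comm]
    refine Finset.sum_congr rfl fun s _ => ?_
    rw [Pi.star_apply, psi]
    simp only [star_mul', star_sum, Finset.mul_sum, Finset.sum_mul, Pi.star_apply, gc]
    refine Finset.sum_congr rfl fun τ _ => ?_
    simp
    ring
  have hq : star x ⬝ᵥ (rho *ᵥ x) = star (star psi ⬝ᵥ x) * (star psi ⬝ᵥ x) +
      (1 / 9216 : ℂ) * ∑ τ, (uu τ : ℂ) * (star (y τ) * y τ) := by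
    rw [rho, dl, Matrix.add_mulVec, dotProduct_add, proj_qf, Matrix.smul_mulVec,
      dotProduct_smul, Matrix.sum_mulVec, dotProduct_sum, smul_eq_mul]
    congr 2
    refine Finset.sum_congr rfl fun τ _ => ?_
    rw [Matrix.smul_mulVec, dotProduct_smul, proj_qf, smul_eq_mul]
  have hr := real_ineq (p := fun τ => (y τ).re) (by
    have := congrArg Complex.re hysum
    rw [Complex.re_sum] at this
    simpa using this)
  have hi := real_ineq (p := fun τ => (y τ).im) (by
    have := congrArg Complex.im hysum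
    rw [Complex.im_sum] at this
    simpa using this)
  have hval : star x ⬝ᵥ (rho *ᵥ x) = (((1 / 9216 : ℝ) *
      (((∑ τ, (kk τ : ℝ) * (y τ).re) ^ 2 + ∑ τ, (uu τ : ℝ) * ((y τ).re) ^ 2) +
      ((∑ τ, (kk τ : ℝ) * (y τ).im) ^ 2 + ∑ τ, (uu τ : ℝ) * ((y τ).im) ^ 2)) : ℝ) : ℂ) := by
    rw [hq, hpsi]
    have e1 : ∑ τ, (kk τ : ℂ) * y τ = ((∑ τ, (kk τ : ℝ) * (y τ).re : ℝ) : ℂ) +
        ((∑ τ, (kk τ : ℝ) * (y τ).im : ℝ) : ℂ) * Complex.I := by
      push_cast
      rw [Finset.sum_mul, ← Finset.sum_add_distrib]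
      refine Finset.sum_congr rfl fun τ _ => ?_
      conv_lhs => rw [← Complex.re_add_im (y τ)]
      ring
    have e2 : ∑ τ, (uu τ : ℂ) * (star (y τ) * y τ) =
        ((∑ τ, (uu τ : ℝ) * ((y τ).re) ^ 2 : ℝ) : ℂ) +
        ((∑ τ, (uu τ : ℝ) * ((y τ).im) ^ 2 : ℝ) : ℂ) := by
      push_cast
      rw [← Finset.sum_add_distrib]
      refine Finset.sum_congr rfl fun τ _ => ?_
      have : star (y τ) * y τ = ((y τ).re : ℂ) ^ 2 + ((y τ).im : ℂ) ^ 2 := by
        rw [Complex.star_def, mul_comm, Complex.mul_conj, Complex.normSq_apply]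
        push_cast
        ring
      rw [this]
      ring
    rw [e1, e2]
    set A : ℝ := ∑ τ, (kk τ : ℝ) * (y τ).re
    set B : ℝ := ∑ τ, (kk τ : ℝ) * (y τ).im
    simp only [star_mul', star_add, Complex.star_def, Complex.conj_ofReal, Complex.conj_I]
    have : (starRingEnd ℂ) (1 / 96 : ℂ) = 1 / 96 := by
      rw [show (1 / 96 : ℂ) = ((1 / 96 : ℝ) : ℂ) by push_cast; rfl, Complex.conj_ofReal]
    rw [this]
    push_cast
    linear_combination (-(1 / 9216 : ℂ) * (B : ℂ) ^ 2) * Complex.I_sq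
  rw [hval, Complex.zero_le_real]
  positivity

lemma rho_ne : rho ≠ proj psi := by
  intro h
  have h1 : (1 / 9216 : ℂ) • dl = 0 := by
    have : rho = proj psi + (1 / 9216 : ℂ) • dl := rfl
    rw [h] at this
    exact (left_eq_add.mp this)
  have h2 := congrFun (congrFun h1 (St 0)) (St 1)
  simp only [dl, Matrix.smul_apply, Matrix.sum_apply, proj, vecMulVec_apply, Pi.star_apply, gc,
    g_St, smul_eq_mul, Matrix.zero_apply] at h2
  simp [Fin.sum_univ_six, uu, E] at h2
  norm_num at h2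

/-- There is a pure state of six qubits which is uniformly certifiable under the promise that
the state is pure, but not without a promise. -/
theorem result : ∃ v : Idx 6 → ℂ, IsUnitVec v ∧ CertifiableAmongPure v ∧
    ¬ CertifiableAmongAll v :=
  ⟨psi, psi_unit, psi_certifiable, fun h => rho_ne (h rho ⟨rho_psd, rho_trace⟩ rho_data)⟩

end Pool.Agent.Results.MP_baa5e6_mp.MixedNotPure
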